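import Mathlib

set_option autoImplicit false

namespace Pool.Agent.Y204.TP

variable {k : Type} [Field k] {S : Type} [CommRing S] [Algebra k S]

/-- The socle of `S / Q` with respect to the ideal `m`: the elements killed by `m`. -/
def socle (k : Type) [Field k] {S : Type} [CommRing S] [Algebra k S] (m Q : Ideal S) :
    Submodule k (S ⧸ Q) where
  carrier := {z | ∀ a ∈ m, Ideal.Quotient.mk Q a * z = 0}
  add_mem' := by
    intro x y hx hy a ha
    rw [mul_add, hx a ha, hy a ha, add_zero]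
  zero_mem' := by
    intro a _
    rw [mul_zero]
  smul_mem' := by
    intro c z hz a ha
    rw [mul_smul_comm, hz a ha, smul_zero]

lemma exists_socle (m Q : Ideal S) : ∀ (c : ℕ) (z : S ⧸ Q), z ≠ 0 →
    (∀ a ∈ m ^ c, Ideal.Quotient.mk Q a * z = 0) →
    ∃ t : S, Ideal.Quotient.mk Q t * z ≠ 0 ∧ Ideal.Quotient.mk Q t * z ∈ socle k m Q := by
  intro c
  induction c with
  | zero =>
    intro z hz h
    have h1 := h 1 (by simp)
    rw [map_one, one_mul] at h1
    exact absurd h1 hz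
  | succ c ih =>
    intro z hz h
    by_cases h0 : ∀ a ∈ m ^ c, Ideal.Quotient.mk Q a * z = 0
    · exact ih z hz h0
    · push Not at h0
      obtain ⟨a, ha, haz⟩ := h0
      refine ⟨a, haz, fun b hb => ?_⟩
      rw [← mul_assoc, ← map_mul]
      refine h _ ?_
      rw [pow_succ, mul_comm b a]
      exact Ideal.mul_mem_mul ha hb

theorem dual_gen (m Q : Ideal S) {c s : ℕ} (hc : m ^ c ≤ Q) [Module.Finite k (S ⧸ Q)]
    (hs : Module.finrank k (socle k m Q) = s) :
    ∃ ψ : Fin s → Module.Dual k (S ⧸ Q), ∀ θ : Module.Dual k (S ⧸ Q), ∃ e : Fin s → S,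
      ∀ v, θ v = ∑ j, ψ j (Ideal.Quotient.mk Q (e j) * v) := by
  subst hs
  let b := Module.finBasis k (socle k m Q)
  choose ψ hψ using fun j => LinearMap.exists_extend (b.coord j)
  refine ⟨ψ, ?_⟩
  let T : Submodule k (Module.Dual k (S ⧸ Q)) :=
    { carrier := {θ | ∃ e : Fin (Module.finrank k (socle k m Q)) → S,
        ∀ v, θ v = ∑ j, ψ j (Ideal.Quotient.mk Q (e j) * v)}
      add_mem' := by
        rintro θ θ' ⟨e, he⟩ ⟨e', he'⟩
        refine ⟨e + e', fun v => ?_⟩
        rw [LinearMap.add_apply, he, he', ← Finset.sum_add_distrib]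
        refine Finset.sum_congr rfl fun j _ => ?_
        rw [Pi.add_apply, map_add, add_mul, map_add]
      zero_mem' := ⟨0, fun v => by simp⟩
      smul_mem' := by
        rintro a θ ⟨e, he⟩
        refine ⟨fun j => a • e j, fun v => ?_⟩
        rw [LinearMap.smul_apply, he, Finset.smul_sum]
        refine Finset.sum_congr rfl fun j _ => ?_
        rw [← map_smul, ← smul_mul_assoc]
        rfl }
  have hT : T = ⊤ := by
    have h1 : T.dualCoannihilator = ⊥ := by
      rw [eq_bot_iff]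
      intro z hz
      rw [Submodule.mem_dualCoannihilator] at hz
      by_contra hz0
      rw [Submodule.mem_bot] at hz0
      obtain ⟨t, ht0, ht⟩ := exists_socle (k := k) m Q c z hz0 (fun a ha => by
        rw [Ideal.Quotient.eq_zero_iff_mem.2 (hc ha), zero_mul])
      apply ht0
      have h2 : (⟨_, ht⟩ : socle k m Q) = 0 := by
        apply b.ext_elem
        intro j
        have h3 : ψ j (Ideal.Quotient.mk Q t * z) = b.coord j ⟨_, ht⟩ :=
          LinearMap.congr_fun (hψ j) ⟨_, ht⟩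
        have h4 : (ψ j ∘ₗ LinearMap.mulLeft k (Ideal.Quotient.mk Q t)) ∈ T := by
          refine ⟨Pi.single j t, fun v => ?_⟩
          rw [Finset.sum_eq_single j]
          · rw [Pi.single_eq_same]; rfl
          · intro i _ hij
            rw [Pi.single_eq_of_ne hij, map_zero, zero_mul, map_zero]
          · intro h
            exact absurd (Finset.mem_univ _) h
        have h5 := hz _ h4
        have h6 : ψ j (Ideal.Quotient.mk Q t * z) = 0 := h5
        rw [h6] at h3
        rw [map_zero, Finsupp.zero_apply]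
        exact h3.symm
      exact congrArg Subtype.val h2
    have h2 := Subspace.dualCoannihilator_dualAnnihilator_eq (W := T)
    rw [h1, Submodule.dualAnnihilator_bot] at h2
    exact h2.symm
  intro θ
  have : θ ∈ T := hT ▸ Submodule.mem_top
  exact this

theorem perfect (m K : Ideal S) {c : ℕ} (hc : m ^ c ≤ K) [Module.Finite k (S ⧸ K)]
    (hs : Module.finrank k (socle k m K) = 1) :
    ∃ lam : S →ₗ[k] k, (∀ s ∈ K, lam s = 0) ∧ (∀ s, (∀ t, lam (t * s) = 0) → s ∈ K) ∧
      ∀ μ : S →ₗ[k] k, (∀ s ∈ K, μ s = 0) → ∃ p : S, ∀ s, μ s = lam (p * s) := by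
  obtain ⟨ψ, hψ⟩ := dual_gen (k := k) m K hc hs
  let π : S →ₗ[k] (S ⧸ K) := (Ideal.Quotient.mkₐ k K).toLinearMap
  have hπ : ∀ s, π s = Ideal.Quotient.mk K s := fun s => rfl
  refine ⟨ψ 0 ∘ₗ π, fun s hs => ?_, fun s hs => ?_, fun μ hμ => ?_⟩
  · rw [LinearMap.comp_apply, hπ, Ideal.Quotient.eq_zero_iff_mem.2 hs, map_zero]
  · rw [← Ideal.Quotient.eq_zero_iff_mem]
    rw [← Module.forall_dual_apply_eq_zero_iff k]
    intro θ
    obtain ⟨e, he⟩ := hψ θ
    rw [he, Fin.sum_univ_one, ← map_mul]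
    exact hs (e 0)
  · have hker : LinearMap.ker π ≤ LinearMap.ker μ := by
      intro s hs
      rw [LinearMap.mem_ker, hπ, Ideal.Quotient.eq_zero_iff_mem] at hs
      exact hμ s hs
    have hsurj : Function.Surjective π := Ideal.Quotient.mk_surjective
    let θ : Module.Dual k (S ⧸ K) :=
      ((LinearMap.ker π).liftQ μ hker) ∘ₗ (π.quotKerEquivOfSurjective hsurj).symm.toLinearMap
    have hθ : ∀ s, θ (π s) = μ s := by
      intro s
      have h1 : (π.quotKerEquivOfSurjective hsurj).symm (π s) = (LinearMap.ker π).mkQ s := by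
        rw [LinearEquiv.symm_apply_eq]
        rfl
      change ((LinearMap.ker π).liftQ μ hker) ((π.quotKerEquivOfSurjective hsurj).symm (π s)) = μ s
      rw [h1]
      rfl
    obtain ⟨e, he⟩ := hψ θ
    refine ⟨e 0, fun s => ?_⟩
    rw [← hθ, he, Fin.sum_univ_one, hπ, ← map_mul]
    rfl

lemma exists_factor {V W : Type} [AddCommGroup V] [Module k V] [AddCommGroup W] [Module k W]
    (q : V →ₗ[k] W) (f : V →ₗ[k] k) (h : LinearMap.ker q ≤ LinearMap.ker f) :
    ∃ θ : W →ₗ[k] k, ∀ v, θ (q v) = f v := by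
  let f' := (LinearMap.ker q).liftQ f h
  let q' := (LinearMap.ker q).liftQ q le_rfl
  have hq' : LinearMap.ker q' = ⊥ := by
    rw [Submodule.ker_liftQ_eq_bot]
    exact le_rfl
  obtain ⟨g, hg⟩ := LinearMap.exists_leftInverse_of_injective q' hq'
  refine ⟨f' ∘ₗ g, fun v => ?_⟩
  have h1 : q v = q' ((LinearMap.ker q).mkQ v) := rfl
  rw [LinearMap.comp_apply, h1]
  have h2 : g (q' ((LinearMap.ker q).mkQ v)) = (LinearMap.ker q).mkQ v :=
    LinearMap.congr_fun hg _
  rw [h2]
  rfl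

theorem core (m Q K a : Ideal S) {c s n : ℕ} (hcQ : m ^ c ≤ Q) (hQK : Q ≤ K)
    [Module.Finite k (S ⧸ Q)] [Module.Finite k (S ⧸ K)]
    (hs : Module.finrank k (socle k m Q) = s) (hK : Module.finrank k (socle k m K) = 1)
    (haK : a ≤ K) (hKa : K * a ≤ Q) (D : Fin n → Derivation k S S)
    (hD : ∀ i, ∀ l ∈ a, l ∈ Q → D i l ∈ K) :
    ∃ e : Fin n → Fin s → S, ∀ l ∈ a, ∃ p : Fin s → S, ∀ i,
      D i l - ∑ j, e i j * p j ∈ K := by
  obtain ⟨lam, h0, h1, h2⟩ := perfect (k := k) m K (hcQ.trans hQK) hK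
  obtain ⟨ψ, hψ⟩ := dual_gen (k := k) m Q hcQ hs
  let π : S →ₗ[k] (S ⧸ Q) := (Ideal.Quotient.mkₐ k Q).toLinearMap
  have hπ : ∀ s, π s = Ideal.Quotient.mk Q s := fun s => rfl
  have hθ : ∀ i, ∃ θ : Module.Dual k (S ⧸ Q), ∀ l ∈ a, θ (π l) = lam (D i l) := by
    intro i
    obtain ⟨θ, hθ⟩ := exists_factor (π ∘ₗ (a.restrictScalars k).subtype)
      ((lam ∘ₗ (D i : S →ₗ[k] S)) ∘ₗ (a.restrictScalars k).subtype) (by
        rintro ⟨l, hl⟩ hlq
        have hl' : l ∈ a := hl
        have h3 : π l = 0 := hlq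
        rw [hπ, Ideal.Quotient.eq_zero_iff_mem] at h3
        exact h0 _ (hD i l hl' h3))
    exact ⟨θ, fun l hl => hθ ⟨l, hl⟩⟩
  choose θ hθ using hθ
  choose e he using fun i => hψ (θ i)
  refine ⟨e, fun l hl => ?_⟩
  have hp : ∀ j, ∃ p : S, ∀ t, ψ j (π (t * l)) = lam (p * t) := by
    intro j
    obtain ⟨p, hp⟩ := h2 (ψ j ∘ₗ π ∘ₗ LinearMap.mulRight k l) (by
      intro t ht
      have h3 : π (t * l) = 0 := by
        rw [hπ]
        exact Ideal.Quotient.eq_zero_iff_mem.2 (hKa (Ideal.mul_mem_mul ht hl))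
      change ψ j (π (t * l)) = 0
      rw [h3, map_zero])
    exact ⟨p, hp⟩
  choose p hp using hp
  refine ⟨p, fun i => h1 _ fun t => ?_⟩
  have h3 : lam (t * D i l) = lam (D i (t * l)) := by
    rw [Derivation.leibniz, map_add, smul_eq_mul, smul_eq_mul,
      h0 (l * D i t) (Ideal.mul_mem_right _ _ (haK hl)), add_zero]
  rw [mul_sub, map_sub, h3, ← hθ i _ (Ideal.mul_mem_left _ _ hl), he, sub_eq_zero]
  rw [Finset.mul_sum, map_sum]
  refine Finset.sum_congr rfl fun j _ => ?_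
  have h4 : Ideal.Quotient.mk Q (e i j) * π (t * l) = π ((e i j * t) * l) := by
    rw [hπ, hπ, ← map_mul, mul_assoc]
  rw [h4, hp]
  congr 1
  ring

end Pool.Agent.Y204.TP
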