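import Pool.Agent.Y204.TP.Core
import Pool.Agent.Helper226.Dim

set_option autoImplicit false

open MvPolynomial

namespace Pool.Agent.Y204.TP

section seq

variable {S : Type} [CommRing S]

/-- The ideal generated by the first `d` members of the sequence `y`. -/
def seqIdeal (y : ℕ → S) (d : ℕ) : Ideal S := Ideal.span (y '' {j | j < d})

/-- The first `d` members of the sequence `y` form a regular sequence on `S / a`, in the sense that
each of them is a nonzerodivisor modulo `a` and the preceding ones. -/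
def IsRegOn (a : Ideal S) (y : ℕ → S) (d : ℕ) : Prop :=
  ∀ j < d, ∀ b : S, y j * b ∈ a ⊔ seqIdeal y j → b ∈ a ⊔ seqIdeal y j

lemma seqIdeal_mono (g : ℕ → S) {m m' : ℕ} (h : m ≤ m') : seqIdeal g m ≤ seqIdeal g m' :=
  Ideal.span_mono (Set.image_mono fun _ hj => lt_of_lt_of_le hj h)

lemma mem_seqIdeal (g : ℕ → S) {m j : ℕ} (h : j < m) : g j ∈ seqIdeal g m :=
  Ideal.subset_span ⟨j, h, rfl⟩

lemma exists_coeff (g : ℕ → S) (m : ℕ) (y : S) (hy : y ∈ seqIdeal g m) :
    ∃ d : ℕ → S, y = ∑ i ∈ Finset.range m, d i * g i := by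
  refine Submodule.span_induction (p := fun y _ => ∃ d : ℕ → S,
    y = ∑ i ∈ Finset.range m, d i * g i) ?_ ?_ ?_ ?_ hy
  · rintro _ ⟨j, hj, rfl⟩
    refine ⟨Pi.single j 1, ?_⟩
    rw [Finset.sum_eq_single j]
    · rw [Pi.single_eq_same, one_mul]
    · intro i _ hij
      rw [Pi.single_eq_of_ne hij, zero_mul]
    · intro h
      exact absurd (Finset.mem_range.2 hj) h
  · exact ⟨0, by simp⟩
  · rintro _ _ _ _ ⟨d, rfl⟩ ⟨e, rfl⟩
    exact ⟨d + e, by simp [add_mul, Finset.sum_add_distrib]⟩
  · rintro a _ _ ⟨d, rfl⟩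
    exact ⟨fun i => a * d i, by simp [Finset.mul_sum, mul_assoc]⟩

theorem coeff_mem_of_relation (a : Ideal S) (g : ℕ → S) (m : ℕ) (hreg : IsRegOn a g m) :
    ∀ c : ℕ → S, ∑ i ∈ Finset.range m, c i * g i ∈ a → ∀ i < m, c i ∈ a ⊔ seqIdeal g m := by
  induction m with
  | zero => intro c _ i hi; omega
  | succ m ih =>
    intro c hc i hi
    rw [Finset.sum_range_succ] at hc
    have h1 : g m * c m ∈ a ⊔ seqIdeal g m := by
      have : g m * c m = (∑ i ∈ Finset.range m, c i * g i + c m * g m) -
          ∑ i ∈ Finset.range m, c i * g i := by ring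
      rw [this]
      exact sub_mem (Ideal.mem_sup_left hc) (Ideal.mem_sup_right (Ideal.sum_mem _ fun i hi =>
        Ideal.mul_mem_left _ _ (mem_seqIdeal g (Finset.mem_range.1 hi))))
    have h2 := hreg m (by omega) _ h1
    obtain ⟨u, hu, v, hv, huv⟩ := Submodule.mem_sup.1 h2
    obtain ⟨d, hd⟩ := exists_coeff g m _ hv
    have h3 : ∑ i ∈ Finset.range m, (c i + d i * g m) * g i ∈ a := by
      have h4 : ∑ i ∈ Finset.range m, (c i + d i * g m) * g i =
          (∑ i ∈ Finset.range m, c i * g i + c m * g m) - u * g m := by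
        rw [← huv, hd, add_mul, Finset.sum_mul]
        have : ∑ i ∈ Finset.range m, (c i + d i * g m) * g i =
            ∑ i ∈ Finset.range m, c i * g i + ∑ i ∈ Finset.range m, d i * g i * g m := by
          rw [← Finset.sum_add_distrib]
          exact Finset.sum_congr rfl fun i _ => by ring
        rw [this]
        ring
      rw [h4]
      exact sub_mem hc (Ideal.mul_mem_right _ _ hu)
    have h5 := ih (fun i hi => hreg i (by omega)) _ h3
    have hmono : a ⊔ seqIdeal g m ≤ a ⊔ seqIdeal g (m + 1) :=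
      sup_le_sup_left (seqIdeal_mono g (Nat.le_succ m)) _
    rcases Nat.lt_succ_iff_lt_or_eq.1 hi with hi' | rfl
    · have h6 : c i = (c i + d i * g m) - d i * g m := by ring
      rw [h6]
      exact Ideal.sub_mem _ (hmono (h5 i hi'))
        (Ideal.mul_mem_left _ _ (Ideal.mem_sup_right (mem_seqIdeal g (Nat.lt_succ_self m))))
    · exact hmono h2

end seq

variable {k : Type} [Field k] {n : ℕ}

lemma mem_vars (f : MvPolynomial (Fin n) k) : f ∈ idealOfVars (Fin n) k ↔ coeff 0 f = 0 := by
  rw [← pow_one (idealOfVars (Fin n) k), mem_pow_idealOfVars_iff']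
  constructor
  · intro h
    exact h 0 (by simp)
  · intro h x hx
    have : x = 0 := by
      rw [← Finsupp.degree_eq_zero_iff]; omega
    rw [this]; exact h

lemma vars_eq_ker : idealOfVars (Fin n) k =
    RingHom.ker (constantCoeff : MvPolynomial (Fin n) k →+* k) := by
  ext f
  rw [mem_vars, RingHom.mem_ker, constantCoeff_eq]

lemma vars_maximal : (idealOfVars (Fin n) k).IsMaximal := by
  rw [vars_eq_ker]
  exact RingHom.ker_isMaximal_of_surjective _ fun c => ⟨C c, constantCoeff_C _ c⟩

/-- The ideal `a` is homogeneous for the grading with `deg x_i = w i`: with a polynomial it contains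
its weighted homogeneous components. -/
def IsHomog (w : Fin n → ℕ) (a : Ideal (MvPolynomial (Fin n) k)) : Prop :=
  ∀ f ∈ a, ∀ d : ℕ, weightedHomogeneousComponent w d f ∈ a

/-- the Euler relations -/
theorem le_span [CharZero k] (w : Fin n → ℕ) (hw : ∀ i, 0 < w i)
    (a K : Ideal (MvPolynomial (Fin n) k))
    (ha : IsHomog w a) (ham : a ≤ idealOfVars (Fin n) k)
    {s : ℕ} (e : Fin n → Fin s → MvPolynomial (Fin n) k)
    (he : ∀ l ∈ a, ∃ p : Fin s → MvPolynomial (Fin n) k, ∀ i,
      pderiv i l - ∑ j, e i j * p j ∈ K) :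
    a ≤ Ideal.span (Set.range fun j => ∑ i, C (w i : k) * X i * e i j) ⊔
      idealOfVars (Fin n) k * K := by
  classical
  intro l hl
  rw [← sum_weightedHomogeneousComponent w l]
  refine finsum_induction _ (Ideal.zero_mem _) (fun _ _ => Ideal.add_mem _) fun d => ?_
  have hf : weightedHomogeneousComponent w d l ∈ a := ha l hl d
  have hfd : IsWeightedHomogeneous w (weightedHomogeneousComponent w d l) d :=
    weightedHomogeneousComponent_isWeightedHomogeneous d l
  generalize weightedHomogeneousComponent w d l = f at hf hfd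
  rcases Nat.eq_zero_or_pos d with rfl | hd
  · have hf0 : f = 0 := by
      ext x
      rw [coeff_zero]
      by_contra hx
      have h1 := hfd hx
      have h2 : x = 0 := by
        ext i
        rw [Finsupp.weight_apply, Finsupp.sum_fintype _ _ (by simp)] at h1
        have h3 := (Finset.sum_eq_zero_iff_of_nonneg (fun i _ => Nat.zero_le _)).1 h1 i
          (Finset.mem_univ i)
        rcases Nat.mul_eq_zero.1 h3 with h4 | h4
        · exact h4
        · exact absurd h4 (hw i).ne'
      rw [h2] at hx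
      exact hx ((mem_vars f).1 (ham hf))
    rw [hf0]
    exact Ideal.zero_mem _
  · obtain ⟨p, hp⟩ := he f hf
    have h1 := hfd.sum_weight_X_mul_pderiv
    have h2 : (C ((d : k)⁻¹) : MvPolynomial (Fin n) k) * (d • f) = f := by
      rw [nsmul_eq_mul, ← mul_assoc, ← map_natCast (C (σ := Fin n) (R := k)) d, ← map_mul,
        inv_mul_cancel₀ (Nat.cast_ne_zero.2 hd.ne'), map_one, one_mul]
    rw [← h2]
    refine Ideal.mul_mem_left _ _ ?_
    rw [← h1]
    have h3 : ∑ i, w i • (X i * pderiv i f) =
        ∑ j, (∑ i, C (w i : k) * X i * e i j) * p j +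
          ∑ i, C (w i : k) * (X i * (pderiv i f - ∑ j, e i j * p j)) := by
      have h4 : ∑ j, (∑ i, C (w i : k) * X i * e i j) * p j =
          ∑ i, C (w i : k) * (X i * ∑ j, e i j * p j) := by
        simp_rw [Finset.sum_mul, Finset.mul_sum]
        rw [Finset.sum_comm]
        exact Finset.sum_congr rfl fun i _ => Finset.sum_congr rfl fun j _ => by ring
      rw [h4, ← Finset.sum_add_distrib]
      refine Finset.sum_congr rfl fun i _ => ?_
      rw [nsmul_eq_mul, map_natCast]
      ring
    rw [h3]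
    refine add_mem (Ideal.mem_sup_left ?_) (Ideal.mem_sup_right ?_)
    · exact Ideal.sum_mem _ fun j _ => Ideal.mul_mem_right _ _ (Ideal.subset_span ⟨j, rfl⟩)
    · refine Ideal.sum_mem _ fun i _ => Ideal.mul_mem_left _ _ ?_
      exact Ideal.mul_mem_mul (Ideal.subset_span ⟨i, rfl⟩) (hp i)

/-- the count of generators -/
theorem count {s d : ℕ} (G a Q : Ideal (MvPolynomial (Fin n) k))
    (g : Fin s → MvPolynomial (Fin n) k) (hg : ∀ j, g j ∈ idealOfVars (Fin n) k)
    (y : ℕ → MvPolynomial (Fin n) k) (hy : ∀ j < d, y j ∈ idealOfVars (Fin n) k)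
    (hQ : Q ≤ G ⊔ seqIdeal y d) {c : ℕ} (hc : idealOfVars (Fin n) k ^ c ≤ Q)
    {N : ℕ} (hred : G ^ (N + 1) ≤ a * G ^ N)
    (ha : a ≤ Ideal.span (Set.range g) ⊔ idealOfVars (Fin n) k * (G ⊔ seqIdeal y d)) :
    n ≤ s + d := by
  classical
  let m := idealOfVars (Fin n) k
  have hm : m.IsMaximal := vars_maximal
  let t : Finset (MvPolynomial (Fin n) k) :=
    Finset.image g Finset.univ ∪ Finset.image y (Finset.range d)
  have ht : Ideal.span (t : Set (MvPolynomial (Fin n) k)) =
      Ideal.span (Set.range g) ⊔ seqIdeal y d := by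
    rw [seqIdeal, ← Ideal.span_union]
    congr 1
    ext x
    simp [t]
  have hmin : m ∈ (Ideal.span (t : Set (MvPolynomial (Fin n) k))).minimalPrimes := by
    rw [ht]
    refine ⟨⟨hm.isPrime, sup_le ?_ ?_⟩, ?_⟩
    · rw [Ideal.span_le]
      rintro _ ⟨j, rfl⟩
      exact hg j
    · rw [seqIdeal, Ideal.span_le]
      rintro _ ⟨j, hj, rfl⟩
      exact hy j hj
    · rintro P ⟨hP, hPle⟩ hPm
      have hgP : Ideal.span (Set.range g) ≤ P := le_sup_left.trans hPle
      have hyP : seqIdeal y d ≤ P := le_sup_right.trans hPle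
      have h1 : G ^ (N + 1) ≤ P ⊔ m * G ^ (N + 1) := by
        refine hred.trans ((Ideal.mul_mono_left ha).trans ?_)
        rw [Ideal.sup_mul]
        refine sup_le (Ideal.mul_le_left.trans (hgP.trans le_sup_left)) ?_
        rw [Ideal.mul_sup, Ideal.sup_mul]
        refine sup_le ?_ ?_
        · rw [mul_assoc, ← pow_succ']
          exact le_sup_right
        · exact Ideal.mul_le_left.trans (Ideal.mul_le_right.trans (hyP.trans le_sup_left))
      let M : Submodule (MvPolynomial (Fin n) k) (MvPolynomial (Fin n) k ⧸ P) :=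
        Submodule.map P.mkQ (G ^ (N + 1))
      have hM : M ≤ m • M := by
        have h2 := Submodule.map_mono (f := P.mkQ) h1
        rw [Submodule.map_sup] at h2
        refine h2.trans (sup_le ?_ ?_)
        · rintro _ ⟨x, hx, rfl⟩
          have : P.mkQ x = 0 := by
            rw [Submodule.mkQ_apply, Submodule.Quotient.mk_eq_zero]
            exact hx
          rw [this]
          exact Submodule.zero_mem _
        · rw [← smul_eq_mul, Submodule.map_smul'']
      have hfg : M.FG := Submodule.FG.map _ (IsNoetherian.noetherian _)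
      obtain ⟨r, hr, hr'⟩ := Submodule.exists_sub_one_mem_and_smul_eq_zero_of_fg_of_le_smul m M hfg hM
      have hrP : r ∉ P := by
        intro h
        have h3 : (1 : MvPolynomial (Fin n) k) ∈ m := by
          have := sub_mem (hPm h) hr
          simpa using this
        exact hm.ne_top ((Ideal.eq_top_iff_one _).2 h3)
      have hGP : G ^ (N + 1) ≤ P := by
        intro x hx
        have h3 := hr' (P.mkQ x) ⟨x, hx, rfl⟩
        rw [← map_smul, Submodule.mkQ_apply, Submodule.Quotient.mk_eq_zero, smul_eq_mul] at h3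
        exact (hP.mem_or_mem h3).resolve_left hrP
      have hGP' : G ≤ P := (hP.pow_le_iff (Nat.succ_ne_zero N)).1 hGP
      have h4 : m ^ c ≤ P := hc.trans (hQ.trans (sup_le hGP' hyP))
      rcases Nat.eq_zero_or_pos c with rfl | hc0
      · rw [pow_zero, Ideal.one_eq_top] at h4
        exact absurd (top_le_iff.1 h4) hP.ne_top
      · exact (hP.pow_le_iff hc0.ne').1 h4
  have h1 := Ideal.height_le_card_of_mem_minimalPrimes_span_finset hmin
  rw [Pool.Agent.Helper226.mvPolynomial_height k n m hm] at h1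
  have h2 : t.card ≤ s + d := by
    refine (Finset.card_union_le _ _).trans (add_le_add ?_ ?_)
    · exact Finset.card_image_le.trans (by simp)
    · exact Finset.card_image_le.trans (by simp)
  have h3 : n ≤ t.card := by exact_mod_cast h1
  exact h3.trans h2

/-- the quotient by an ideal containing a power of the ideal of the variables is finite -/
theorem finite_quot (Q : Ideal (MvPolynomial (Fin n) k)) {c : ℕ}
    (hc : idealOfVars (Fin n) k ^ c ≤ Q) : Module.Finite k (MvPolynomial (Fin n) k ⧸ Q) := by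
  classical
  have hfin : {x : Fin n →₀ ℕ | x.degree < c}.Finite := by
    refine (Set.Finite.subset (Set.finite_Iic (Finsupp.equivFunOnFinite.symm fun _ => c)) ?_)
    intro x hx i
    have h1 : x i ≤ x.degree := Finsupp.le_degree i x
    have h2 : x.degree < c := hx
    exact h1.trans h2.le
  have := hfin.to_subtype
  let φ : MvPolynomial (Fin n) k →ₗ[k] ({x : Fin n →₀ ℕ | x.degree < c} → k) :=
    LinearMap.pi fun x => lcoeff k x.1
  have hφ : ∀ f, φ f = 0 → f ∈ Q := by
    intro f hf
    apply hc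
    rw [mem_pow_idealOfVars_iff']
    intro x hx
    exact congrFun hf ⟨x, hx⟩
  let e := φ.quotKerEquivRange
  have h1 : Module.Finite k (MvPolynomial (Fin n) k ⧸ LinearMap.ker φ) :=
    Module.Finite.equiv e.symm
  let π : MvPolynomial (Fin n) k →ₗ[k] (MvPolynomial (Fin n) k ⧸ Q) :=
    (Ideal.Quotient.mkₐ k Q).toLinearMap
  have hπ : LinearMap.ker φ ≤ LinearMap.ker π := by
    intro f hf
    exact Ideal.Quotient.eq_zero_iff_mem.2 (hφ f hf)
  refine Module.Finite.of_surjective ((LinearMap.ker φ).liftQ π hπ) ?_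
  intro z
  obtain ⟨f, rfl⟩ := Ideal.Quotient.mk_surjective z
  exact ⟨(LinearMap.ker φ).mkQ f, rfl⟩

/-- the main inequality -/
theorem main [CharZero k] (w : Fin n → ℕ) (hw : ∀ i, 0 < w i)
    (I J G a : Ideal (MvPolynomial (Fin n) k)) (ha : IsHomog w a) (hIG : I ≤ G) (hJG : J ≤ G)
    (hGm : G ≤ idealOfVars (Fin n) k) (hIJ : I * J ≤ a) (haG : a ≤ G) (hGa : G * a ≤ I * J)
    {N : ℕ} (hred : G ^ (N + 1) ≤ a * G ^ N) (y : ℕ → MvPolynomial (Fin n) k) {d c : ℕ}
    (hy : ∀ j < d, y j ∈ idealOfVars (Fin n) k) (hreg : IsRegOn a y d)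
    (hc : idealOfVars (Fin n) k ^ c ≤ I * J ⊔ seqIdeal y d)
    (hgor : Module.finrank k (socle k (idealOfVars (Fin n) k) (G ⊔ seqIdeal y d)) = 1) :
    n ≤ Module.finrank k (socle k (idealOfVars (Fin n) k) (I * J ⊔ seqIdeal y d)) + d := by
  classical
  have hIJG : I * J ≤ G := Ideal.mul_le_left.trans hIG
  have hQK : I * J ⊔ seqIdeal y d ≤ G ⊔ seqIdeal y d := sup_le_sup_right hIJG _
  have f1 := finite_quot _ hc
  have f2 := finite_quot _ (hc.trans hQK)
  have hKa : (G ⊔ seqIdeal y d) * a ≤ I * J ⊔ seqIdeal y d := by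
    rw [Ideal.sup_mul]
    exact sup_le (hGa.trans le_sup_left) (Ideal.mul_le_left.trans le_sup_right)
  have hD : ∀ (i : Fin n), ∀ l ∈ a, l ∈ I * J ⊔ seqIdeal y d →
      pderiv i l ∈ G ⊔ seqIdeal y d := by
    intro i l hl hlQ
    obtain ⟨u, hu, v, hv, rfl⟩ := Submodule.mem_sup.1 hlQ
    rw [map_add]
    refine add_mem (Ideal.mem_sup_left ?_) ?_
    · refine Submodule.mul_induction_on hu ?_ ?_
      · intro r hr t ht
        rw [Derivation.leibniz, smul_eq_mul, smul_eq_mul]
        exact add_mem (Ideal.mul_mem_right _ _ (hIG hr)) (Ideal.mul_mem_right _ _ (hJG ht))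
      · intro r t hr ht
        rw [map_add]
        exact add_mem hr ht
    · obtain ⟨b, hb⟩ := exists_coeff y d v hv
      have hva : v ∈ a := by
        have : v = (u + v) - u := by ring
        rw [this]
        exact sub_mem hl (hIJ hu)
      rw [hb] at hva ⊢
      have hb2 := coeff_mem_of_relation a y d hreg b hva
      rw [map_sum]
      refine Ideal.sum_mem _ fun j hj => ?_
      rw [Finset.mem_range] at hj
      rw [Derivation.leibniz, smul_eq_mul, smul_eq_mul]
      refine add_mem (Ideal.mul_mem_right _ _ ?_) (Ideal.mul_mem_right _ _ ?_)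
      · exact (sup_le_sup_right haG _) (hb2 j hj)
      · exact Ideal.mem_sup_right (mem_seqIdeal y hj)
  obtain ⟨e, he⟩ := core (k := k) (idealOfVars (Fin n) k) _ _ a hc hQK rfl hgor
    (haG.trans le_sup_left) hKa (fun i => pderiv i) hD
  refine count G a (I * J ⊔ seqIdeal y d) _ (fun j => ?_) y hy hQK hc hred
    (le_span w hw a _ ha (haG.trans hGm) e he)
  refine Ideal.sum_mem _ fun i _ => Ideal.mul_mem_right _ _ (Ideal.mul_mem_left _ _ ?_)
  exact Ideal.subset_span ⟨i, rfl⟩

end Pool.Agent.Y204.TP
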